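import Pool.Agent.W788.MF2.FinG

/-! The operator `-Δ + λ V` with a bounded iid potential. -/

set_option autoImplicit false
set_option linter.unusedSectionVars false

open scoped BigOperators
open MeasureTheory

namespace Pool.Agent.W788.MF2.Lap

open Pool.Agent.W788.MFP.Form
open Pool.Agent.W788.MF2.FormG Pool.Agent.W788.MF2.Dom Pool.Agent.W788.MF2.FinG
open Pool.Agent.H4R2.LO (Zd)

variable {d : ℕ}

/-- weak disorder, bounded laws -/
theorem lap (hd : 1 ≤ d) (m : ℕ) (Cg : ℝ) (hCg : 1 ≤ Cg)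
    (hg : ∀ (L : ℕ) [NeZero L] (δ : ℝ), 1 / (L : ℝ) ≤ δ → δ ≤ 1 / 2 →
      GB d L δ (Cg * Real.log (1 / δ) ^ m)) (b : ℝ) (hb : 0 < b) :
    ∃ K : ℝ, 0 < K ∧ ∀ (μ : Measure ℝ) [IsProbabilityMeasure μ], (∀ᵐ s ∂μ, |s| ≤ b) →
      ∀ lam ρ : ℝ, 0 < lam → lam ≤ 1 / 2 → 1 / lam ≤ ρ →
      ∃ G : Set (Zd d → ℝ), MeasurableSet G ∧
        1 - 1 / ρ ≤ (Measure.infinitePi fun _ : Zd d => μ).real G ∧
        ∀ ω ∈ G, ∀ (E : ℝ) (u : Zd d → ℂ), (Summable fun x => ‖u x‖ ^ 2) →
          (∀ x, 2 * (d : ℂ) * u x - ∑ i, (u (x + Pi.single i 1) + u (x - Pi.single i 1)) +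
            ((lam * ω x : ℝ) : ℂ) * u x = (E : ℂ) * u x) →
          ∀ a : Zd d, ‖a‖ ≤ ρ →
          ‖u a‖ ^ 2 ≤ K * (lam ^ 2 * Real.log (1 / lam) ^ (2 * m) * Real.log ρ) *
            ∑' x, ‖u x‖ ^ 2 ∧
          ∀ θ R : ℝ, 0 < θ → θ ≤ 1 →
            (∀ j : ℕ, j ≤ d → θ ≤ |E - lam * ∫ s, s ∂μ - 4 * j|) → 1 ≤ R →
            ∀ A : Finset (Zd d), (∀ x ∈ A, ‖x - a‖ ≤ R) → ∑ x ∈ A, ‖u x‖ ^ 2 ≤
              K / θ * Real.sqrt (R * (lam ^ 2 * Real.log (1 / lam) ^ m * Real.log ρ)) *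
                ∑' x, ‖u x‖ ^ 2 := by
  have hd3 : (1 : ℝ) ≤ d := by exact_mod_cast hd
  have hm1 := m1_pos
  obtain ⟨c, hc⟩ : ∃ c : ℝ, c = 2 * b / m1 := ⟨_, rfl⟩
  obtain ⟨A0, hA0⟩ : ∃ A0 : ℝ, A0 = AA d m Cg c := ⟨_, rfl⟩
  have hκ := κ0_ge d hd
  have hA2 : (2 : ℝ) ^ (m + 1) ≤ A0 := by
    rw [hA0]
    unfold AA
    have : 0 ≤ 96 * 2 ^ m * Cg * c ^ 2 * (κ0 d + 2) := by
      have : 0 ≤ κ0 d + 2 := by linarith
      positivity
    linarith
  have hA : 2 ≤ A0 := by
    refine le_trans ?_ hA2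
    calc (2 : ℝ) = 2 ^ 1 := by norm_num
      _ ≤ 2 ^ (m + 1) := pow_le_pow_right₀ (by norm_num) (by omega)
  obtain ⟨K, hK⟩ : ∃ K : ℝ, K = 28 * (d : ℝ) ^ 2 * (d + 1) * A0 + 4 * A0 * Cg * 2 ^ (m + 1) :=
    ⟨_, rfl⟩
  have hKd : 28 * (d : ℝ) ^ 2 * (d + 1) * A0 ≤ K := by
    rw [hK]
    have : 0 ≤ 4 * A0 * Cg * 2 ^ (m + 1) := by positivity
    linarith
  have hKc : 4 * A0 * Cg * 2 ^ (m + 1) ≤ K := by
    rw [hK]
    have : 0 ≤ 28 * (d : ℝ) ^ 2 * (d + 1) * A0 := by positivity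
    linarith
  have hK0 : 0 < K := by
    have : 0 < 4 * A0 * Cg * 2 ^ (m + 1) := by positivity
    linarith
  refine ⟨K, hK0, ?_⟩
  intro μ _ hμ lam ρ hlam hlam1 hρ
  obtain ⟨l, hl⟩ : ∃ l, l = Real.log (1 / lam) := ⟨_, rfl⟩
  obtain ⟨Λ, hΛ⟩ : ∃ Λ, Λ = Real.log ρ := ⟨_, rfl⟩
  have hlam2 : 2 ≤ 1 / lam := by
    rw [le_div_iff₀ hlam]
    linarith
  have hl2 : 1 / 2 ≤ l := by
    rw [hl]
    have h1 := Real.log_le_log (by norm_num) hlam2
    have h2 := Real.log_two_gt_d9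
    linarith
  have hlΛ : l ≤ Λ := by
    rw [hl, hΛ]
    exact Real.log_le_log (by positivity) hρ
  have hΛ2 : 1 / 2 ≤ Λ := by linarith
  rw [← hl, ← hΛ]
  obtain ⟨δ, hδ⟩ : ∃ δ, δ = A0 * (lam ^ 2 * l ^ m * Λ) := ⟨_, rfl⟩
  have hδ0 : 0 < δ := by
    rw [hδ]
    positivity
  rcases le_or_gt δ (1 / 2) with hδ1 | hδ1
  · -- the centred law
    obtain ⟨M, hM⟩ : ∃ M : ℝ, M = ∫ s, s ∂μ := ⟨_, rfl⟩
    have hint : Integrable (fun s : ℝ => s) μ := by
      refine Integrable.of_bound (C := b) (by fun_prop) ?_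
      filter_upwards [hμ] with s h
      exact h
    have hMb : |M| ≤ b := by
      rw [hM]
      have h1 : ‖∫ s, s ∂μ‖ ≤ b * μ.real Set.univ :=
        norm_integral_le_of_norm_le_const hμ
      rw [probReal_univ, mul_one] at h1
      exact h1
    have hmeas : Measurable (fun s : ℝ => M - s) := by fun_prop
    obtain ⟨ν, hν⟩ : ∃ ν : Measure ℝ, ν = μ.map fun s => M - s := ⟨_, rfl⟩
    have hνp : IsProbabilityMeasure ν := by
      rw [hν]
      exact Measure.isProbabilityMeasure_map (by fun_prop)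
    have hdom : DomBy ν c := by
      rw [hc]
      apply dom_bdd ν (2 * b) (by positivity)
      · rw [hν, ae_map_iff (by fun_prop) (measurableSet_le (by fun_prop) (by fun_prop))]
        filter_upwards [hμ] with s h
        calc |M - s| ≤ |M| + |s| := abs_sub _ _
          _ ≤ 2 * b := by linarith
      · rw [hν, integral_map (by fun_prop) (by fun_prop), integral_sub (integrable_const _) hint]
        simp [← hM]
    have hlaw : (Measure.infinitePi fun _ : Zd d => μ).map (fun ω x => M - ω x) =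
        Measure.infinitePi fun _ : Zd d => ν := by
      rw [hν]
      exact Measure.infinitePi_map_pi (μ := fun _ : Zd d => μ)
        (f := fun _ (s : ℝ) => M - s) (fun _ => hmeas)
    obtain ⟨G, hG, hP, hb⟩ := param hd ν c hdom m Cg (by linarith) hg lam ρ δ hlam hlam1 hρ (by
      rw [hδ, hA0, hl, hΛ]) hδ1
    have hTm : Measurable (fun (ω : Zd d → ℝ) x => M - ω x) := by fun_prop
    refine ⟨(fun ω x => M - ω x) ⁻¹' G, hTm hG, ?_, ?_⟩
    · have h1 : (Measure.infinitePi fun _ : Zd d => μ).real ((fun ω x => M - ω x) ⁻¹' G) =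
          (Measure.infinitePi fun _ : Zd d => ν).real G := by
        rw [← hlaw, map_measureReal_apply hTm hG]
      rw [h1]
      exact hP
    · intro ω hω E u hu heq a ha
      have hS : 0 ≤ ∑' x, ‖u x‖ ^ 2 := tsum_nonneg fun x => by positivity
      obtain ⟨b1, b2⟩ := hb _ hω (2 * d - E + lam * M) u hu (by
        intro x
        have h1 := heq x
        push_cast at h1 ⊢
        linear_combination -h1) a ha
      rw [← hl] at b1
      constructor
      · refine b1.trans ?_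
        apply mul_le_mul_of_nonneg_right _ hS
        have e1 : 4 * δ * (Cg * (2 * l) ^ m) =
            4 * A0 * Cg * 2 ^ m * (lam ^ 2 * l ^ (2 * m) * Λ) := by
          rw [hδ]
          ring
        rw [e1]
        have e2 : 4 * A0 * Cg * 2 ^ m ≤ 4 * A0 * Cg * 2 ^ (m + 1) := by
          have : (2 : ℝ) ^ m ≤ 2 ^ (m + 1) := pow_le_pow_right₀ (by norm_num) (by omega)
          gcongr
        apply mul_le_mul_of_nonneg_right (e2.trans hKc)
        positivity
      · intro θ R hθ hθ1 hcrit hR A hA'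
        refine (b2 θ R hθ hθ1 (by
          intro j hj
          have h1 := hcrit j hj
          have h2 : 2 * (d : ℝ) - E + lam * M - (2 * d - 4 * j) = -(E - lam * M - 4 * j) := by
            ring
          rw [h2, abs_neg, hM]
          exact h1) hR A hA').trans ?_
        apply mul_le_mul_of_nonneg_right _ hS
        have e1 : R * δ = A0 * (R * (lam ^ 2 * l ^ m * Λ)) := by
          rw [hδ]
          ring
        have e2 : Real.sqrt A0 ≤ A0 := by
          rw [Real.sqrt_le_left (by linarith)]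
          nlinarith
        rw [e1, Real.sqrt_mul (by linarith)]
        calc 28 * (d : ℝ) ^ 2 * (d + 1) / θ *
              (Real.sqrt A0 * Real.sqrt (R * (lam ^ 2 * l ^ m * Λ))) ≤
            28 * (d : ℝ) ^ 2 * (d + 1) / θ *
              (A0 * Real.sqrt (R * (lam ^ 2 * l ^ m * Λ))) := by gcongr
          _ = 28 * (d : ℝ) ^ 2 * (d + 1) * A0 / θ * Real.sqrt (R * (lam ^ 2 * l ^ m * Λ)) := by
              ring
          _ ≤ _ := by gcongr
  · refine ⟨Set.univ, MeasurableSet.univ, ?_, ?_⟩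
    · rw [probReal_univ]
      have : 0 < 1 / ρ := by
        have : 0 < ρ := by linarith
        positivity
      linarith
    · intro ω _ E u hu heq a ha
      have hS : 0 ≤ ∑' x, ‖u x‖ ^ 2 := tsum_nonneg fun x => by positivity
      constructor
      · have h1 : ‖u a‖ ^ 2 ≤ ∑' x, ‖u x‖ ^ 2 :=
          hu.le_tsum a fun x _ => by positivity
        refine h1.trans ?_
        apply le_mul_of_one_le_left hS
        have e1 : 4 * A0 * Cg * 2 ^ (m + 1) * (lam ^ 2 * l ^ (2 * m) * Λ) =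
            8 * Cg * (2 * l) ^ m * δ := by
          rw [hδ, pow_succ, mul_pow]
          ring
        have e2 : 4 * A0 * Cg * 2 ^ (m + 1) * (lam ^ 2 * l ^ (2 * m) * Λ) ≤
            K * (lam ^ 2 * l ^ (2 * m) * Λ) :=
          mul_le_mul_of_nonneg_right hKc (by positivity)
        have e3 : 1 ≤ (2 * l) ^ m := one_le_pow₀ (by linarith)
        have e4 : 8 * 1 * 1 * (1 / 2) ≤ 8 * Cg * (2 * l) ^ m * δ := by
          gcongr
        linarith
      · intro θ R hθ hθ1 hcrit hR A hA'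
        have h1 : ∑ x ∈ A, ‖u x‖ ^ 2 ≤ ∑' x, ‖u x‖ ^ 2 :=
          hu.sum_le_tsum A fun x _ => by positivity
        refine h1.trans ?_
        apply le_mul_of_one_le_left hS
        have e2 : 1 / (2 * A0) ≤ Real.sqrt (R * (lam ^ 2 * l ^ m * Λ)) := by
          apply Real.le_sqrt_of_sq_le
          have e3 : δ / A0 = lam ^ 2 * l ^ m * Λ := by
            rw [hδ]
            field_simp
          rw [← e3]
          have e4 : (1 / (2 * A0)) ^ 2 ≤ (1 / 2) / A0 := by
            rw [div_pow, div_div, div_le_div_iff₀ (by positivity) (by positivity)]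
            nlinarith
          have e5 : (1 / 2) / A0 ≤ δ / A0 := by gcongr
          have e6 : 1 * (δ / A0) ≤ R * (δ / A0) := by gcongr
          linarith
        have e7 : 1 ≤ K / θ * (1 / (2 * A0)) := by
          rw [div_mul_div_comm, mul_one, le_div_iff₀ (by positivity), one_mul]
          have e8 : θ * (2 * A0) ≤ 1 * (2 * A0) := by gcongr
          have e9 : 28 * (1 : ℝ) ^ 2 * (1 + 1) * A0 ≤ 28 * (d : ℝ) ^ 2 * (d + 1) * A0 := by
            gcongr
          linarith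
        refine e7.trans ?_
        gcongr

end Pool.Agent.W788.MF2.Lap
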