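import Pool.Agent.W788.MF2.FormG

/-! The density of states in dimension two. -/

set_option autoImplicit false
set_option linter.unusedSectionVars false

open scoped BigOperators

namespace Pool.Agent.W788.MF2.Dos2d

open Pool.Agent.W788.MFP.Four Pool.Agent.W788.MFP.Dos Pool.Agent.W788.MFP.Form
open Pool.Agent.W788.MF2.FormG

variable {L : ℕ} [NeZero L]

/-- one dimension: the logarithmic sum -/
theorem sum1 (c δ : ℝ) (hδ : 1 / (L : ℝ) ≤ δ) (hδ1 : δ ≤ 1 / 2) :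
    ∑ k : T 1 L, (max |adj k - c| δ) ^ (-(1 / 2 : ℝ)) ≤ 26 * Real.log (1 / δ) * L := by
  have hL : (0 : ℝ) < L := by exact_mod_cast Nat.pos_of_ne_zero (NeZero.ne L)
  have hδ0 : 0 < δ := lt_of_lt_of_le (by positivity) hδ
  obtain ⟨n, hn, h⟩ := dy_sum (fun k : T 1 L => |adj k - c|) δ (1 / 2) (1 / 2) 4 L hδ0
    (by linarith) (by norm_num) (by rw [card_Tn, pow_one]) (fun r hr hr1 =>
      cnt1 c r (hδ.trans hr) hr1)
  simp only [sub_self, Real.rpow_zero, one_pow, Finset.sum_const, Finset.card_range,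
    nsmul_eq_mul, mul_one] at h
  have hl2 : (0.69 : ℝ) < Real.log 2 := by
    have := Real.log_two_gt_d9
    linarith
  have h1 : (n : ℝ) * Real.log 2 ≤ Real.log (1 / δ) := by
    have h2 : (2 : ℝ) ^ n ≤ 1 / δ := by
      rw [le_div_iff₀ hδ0]
      have h3 : (2 : ℝ) ^ n * (1 / 2) ^ n = 1 := by
        rw [← mul_pow]
        norm_num
      calc (2 : ℝ) ^ n * δ ≤ 2 ^ n * (1 / 2) ^ n := by gcongr
        _ = 1 := h3
    have h4 := Real.log_le_log (by positivity) h2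
    rwa [Real.log_pow] at h4
  have h2 : Real.log 2 ≤ Real.log (1 / δ) := by
    apply Real.log_le_log (by norm_num)
    rw [le_div_iff₀ hδ0]
    linarith
  have h3 : (n : ℝ) ≤ 3 / 2 * Real.log (1 / δ) := by
    have : (0 : ℝ) ≤ n := Nat.cast_nonneg n
    nlinarith
  have h4 : (1 : ℝ) ≤ 3 / 2 * Real.log (1 / δ) := by linarith
  have h5 : (2 : ℝ) ^ (1 / 2 : ℝ) ≤ 2 := by
    calc (2 : ℝ) ^ (1 / 2 : ℝ) ≤ 2 ^ (1 : ℝ) :=
          Real.rpow_le_rpow_of_exponent_le (by norm_num) (by norm_num)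
      _ = 2 := Real.rpow_one 2
  refine h.trans ?_
  push_cast
  rw [mul_comm _ (L : ℝ)]
  apply mul_le_mul_of_nonneg_left _ hL.le
  have h6 : 4 * (2 : ℝ) ^ (1 / 2 : ℝ) * ((n : ℝ) + 1) ≤
      4 * 2 * (3 / 2 * Real.log (1 / δ) + 3 / 2 * Real.log (1 / δ)) := by
    gcongr
  linarith

/-- two dimensions -/
theorem cnt2 (δ : ℝ) (hδ : 1 / (L : ℝ) ≤ δ) (hδ1 : δ ≤ 1 / 2) (t r : ℝ) (hr : δ ≤ r)
    (hr1 : r ≤ 1) : cnt L 2 t r ≤ 208 * Real.log (1 / δ) * r * L ^ 2 := by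
  have hL : (0 : ℝ) < L := by exact_mod_cast Nat.pos_of_ne_zero (NeZero.ne L)
  have hδ0 : 0 < δ := lt_of_lt_of_le (by positivity) hδ
  have h := step 1 t r (hδ.trans hr) hr1 (26 * Real.log (1 / δ) * L) (fun c => by
    refine le_trans (Finset.sum_le_sum fun k _ => ?_) (sum1 (L := L) c δ hδ hδ1)
    apply Real.rpow_le_rpow_of_nonpos (lt_of_lt_of_le hδ0 (le_max_right _ _)) _ (by norm_num)
    exact max_le_max le_rfl hr)
  refine h.trans (le_of_eq ?_)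
  ring

/-- **the diagonal of `|H₀ - E - i δ|⁻¹` in dimension two** -/
theorem green2 (δ : ℝ) (hδ : 1 / (L : ℝ) ≤ δ) (hδ1 : δ ≤ 1 / 2) :
    GB 2 L δ (1700 * Real.log (1 / δ) ^ 2) := by
  intro E
  have hL : (0 : ℝ) < L := by exact_mod_cast Nat.pos_of_ne_zero (NeZero.ne L)
  have hδ0 : 0 < δ := lt_of_lt_of_le (by positivity) hδ
  have hl2 : (0.69 : ℝ) < Real.log 2 := by
    have := Real.log_two_gt_d9
    linarith
  have hl : Real.log 2 ≤ Real.log (1 / δ) := by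
    apply Real.log_le_log (by norm_num)
    rw [le_div_iff₀ hδ0]
    linarith
  obtain ⟨l, hldef⟩ : ∃ l, l = Real.log (1 / δ) := ⟨_, rfl⟩
  rw [← hldef] at hl ⊢
  have h1 := dy_log (fun k : T 2 L => |adj k - E|) δ (208 * l) (NN 2 L) hδ0 hδ1
    (by nlinarith) (le_of_eq card_T) (fun r hr hr1 => by
      have := cnt2 δ hδ hδ1 E r hr hr1
      rw [← hldef] at this
      exact this)
  rw [← hldef] at h1
  have h2 : ∑ k : T 2 L, (J E δ k)⁻¹ ≤ ∑ k : T 2 L, (max |adj k - E| δ)⁻¹ := by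
    refine Finset.sum_le_sum fun k _ => ?_
    apply inv_anti₀ (lt_of_lt_of_le hδ0 (le_max_right _ _))
    apply max_le
    · exact J_ge' E δ k
    · exact J_ge E δ hδ0 k
  have hN := NN_pos (d := 2) (L := L)
  calc (NN 2 L)⁻¹ * ∑ k : T 2 L, (J E δ k)⁻¹
      ≤ (NN 2 L)⁻¹ * (NN 2 L * ((2 + 8 * (208 * l)) * l)) := by
        apply mul_le_mul_of_nonneg_left (h2.trans h1) (inv_nonneg.2 hN.le)
    _ = (2 + 8 * (208 * l)) * l := by rw [← mul_assoc, inv_mul_cancel₀ hN.ne', one_mul]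
    _ ≤ 1700 * l ^ 2 := by nlinarith

end Pool.Agent.W788.MF2.Dos2d
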