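import Pool.Agent.W788.MF2.Hyb

/-! Convexity of the trace of an even power, and the tail bound for general laws. -/

set_option autoImplicit false
set_option linter.unusedSectionVars false

open scoped BigOperators ENNReal NNReal Matrix
open MeasureTheory ProbabilityTheory

namespace Pool.Agent.W788.MF2.Nck2

open Pool.Agent.W788.MFP Pool.Agent.W788.MFP.Gm Pool.Agent.W788.MFP.Nck
open Pool.Agent.W788.MF2.Dom

section det

variable {ι : Type*} [Fintype ι] [DecidableEq ι]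

theorem tr_spec (U : Matrix ι ι ℝ) (l : ι → ℝ) (h2 : Uᵀ * U = 1) (h1 : U * Uᵀ = 1) (n : ℕ) :
    ((U * Matrix.diagonal l * Uᵀ) ^ n).trace = ∑ i, l i ^ n := by
  rw [pow_spec U l h2 h1, Matrix.trace_mul_comm, ← Matrix.mul_assoc, h2, Matrix.one_mul,
    Matrix.trace_diagonal]

/-- the diagonal of a symmetric matrix -/
theorem diag_le (W : Matrix ι ι ℝ) (hW : W.IsHermitian) (p : ℕ) :
    ∑ i, W i i ^ (2 * p) ≤ (W ^ (2 * p)).trace := by
  obtain ⟨V, m, h1, h2, h3⟩ := spec W hW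
  have e0 : (W ^ (2 * p)).trace = ∑ j, m j ^ (2 * p) := by
    rw [h3, tr_spec V m h2 h1]
  have e1 : ∀ i, W i i = ∑ j, V i j ^ 2 * m j := by
    intro i
    rw [h3, Matrix.mul_apply]
    refine Finset.sum_congr rfl fun j _ => ?_
    rw [Matrix.mul_diagonal, Matrix.transpose_apply]
    ring
  have e2 : ∀ i, ∑ j, V i j ^ 2 = 1 := by
    intro i
    have := congrFun (congrFun h1 i) i
    rw [Matrix.mul_apply, Matrix.one_apply_eq] at this
    rw [← this]
    refine Finset.sum_congr rfl fun j _ => ?_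
    rw [Matrix.transpose_apply]
    ring
  have e3 : ∀ j, ∑ i, V i j ^ 2 = 1 := by
    intro j
    have := congrFun (congrFun h2 j) j
    rw [Matrix.mul_apply, Matrix.one_apply_eq] at this
    rw [← this]
    refine Finset.sum_congr rfl fun i _ => ?_
    rw [Matrix.transpose_apply]
    ring
  have e4 : ∀ i, W i i ^ (2 * p) ≤ ∑ j, V i j ^ 2 * m j ^ (2 * p) := by
    intro i
    rw [e1 i]
    have hconv : ConvexOn ℝ Set.univ (fun s : ℝ => s ^ (2 * p)) := (even_two_mul p).convexOn_pow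
    have := hconv.map_sum_le (t := Finset.univ) (w := fun j => V i j ^ 2) (p := m)
      (fun j _ => sq_nonneg _) (e2 i) (fun j _ => Set.mem_univ _)
    simpa [smul_eq_mul] using this
  rw [e0]
  refine (Finset.sum_le_sum fun i _ => e4 i).trans ?_
  rw [Finset.sum_comm]
  refine le_of_eq (Finset.sum_congr rfl fun j _ => ?_)
  rw [← Finset.sum_mul, e3 j, one_mul]

theorem conj_pow (U Z : Matrix ι ι ℝ) (h1 : U * Uᵀ = 1) (n : ℕ) :
    (Uᵀ * Z * U) ^ n = Uᵀ * Z ^ n * U ∨ n = 0 := by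
  induction n with
  | zero => right; rfl
  | succ n ih =>
    left
    rcases ih with ih | ih
    · rw [pow_succ, ih]
      calc Uᵀ * Z ^ n * U * (Uᵀ * Z * U) = Uᵀ * Z ^ n * (U * Uᵀ) * Z * U := by
            simp only [Matrix.mul_assoc]
        _ = Uᵀ * (Z ^ n * Z) * U := by
            rw [h1, Matrix.mul_one]
            simp only [Matrix.mul_assoc]
        _ = _ := by rw [← pow_succ]
    · subst ih
      simp

/-- **the trace of an even power is convex** -/
theorem tr_convex (Z1 Z2 : Matrix ι ι ℝ) (hZ1 : Z1.IsHermitian) (hZ2 : Z2.IsHermitian)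
    (α β : ℝ) (hα : 0 ≤ α) (hβ : 0 ≤ β) (hαβ : α + β = 1) (p : ℕ) :
    ((α • Z1 + β • Z2) ^ (2 * p)).trace ≤
      α * (Z1 ^ (2 * p)).trace + β * (Z2 ^ (2 * p)).trace := by
  have hZ : (α • Z1 + β • Z2).IsHermitian := by
    have e1 := hZ1.eq
    have e2 := hZ2.eq
    unfold Matrix.IsHermitian
    rw [Matrix.conjTranspose_add, Matrix.conjTranspose_smul, Matrix.conjTranspose_smul, e1, e2]
    simp
  obtain ⟨U, l, h1, h2, h3⟩ := spec _ hZ
  have e0 : ((α • Z1 + β • Z2) ^ (2 * p)).trace = ∑ i, l i ^ (2 * p) := by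
    rw [h3, tr_spec U l h2 h1]
  have e1 : Uᵀ * (α • Z1 + β • Z2) * U = Matrix.diagonal l := by
    rw [h3]
    calc Uᵀ * (U * Matrix.diagonal l * Uᵀ) * U = (Uᵀ * U) * Matrix.diagonal l * (Uᵀ * U) := by
          simp only [Matrix.mul_assoc]
      _ = _ := by rw [h2, Matrix.one_mul, Matrix.mul_one]
  have e2 : ∀ i, l i = α * (Uᵀ * Z1 * U) i i + β * (Uᵀ * Z2 * U) i i := by
    intro i
    have := congrFun (congrFun e1 i) i
    rw [Matrix.diagonal_apply_eq] at this
    rw [← this, Matrix.mul_add, Matrix.add_mul, Matrix.mul_smul, Matrix.mul_smul,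
      Matrix.smul_mul, Matrix.smul_mul]
    simp [Matrix.add_apply, Matrix.smul_apply]
  have hherm : ∀ Z : Matrix ι ι ℝ, Z.IsHermitian → (Uᵀ * Z * U).IsHermitian := by
    intro Z hZ
    have := Matrix.isHermitian_conjTranspose_mul_mul U hZ
    rwa [Matrix.conjTranspose_eq_transpose_of_trivial] at this
  have htr : ∀ Z : Matrix ι ι ℝ, ((Uᵀ * Z * U) ^ (2 * p)).trace = (Z ^ (2 * p)).trace := by
    intro Z
    rcases conj_pow U Z h1 (2 * p) with h | h
    · rw [h, Matrix.trace_mul_comm, ← Matrix.mul_assoc, h1, Matrix.one_mul]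
    · rw [h, pow_zero, pow_zero]
  have e3 : ∀ i, l i ^ (2 * p) ≤ α * (Uᵀ * Z1 * U) i i ^ (2 * p) +
      β * (Uᵀ * Z2 * U) i i ^ (2 * p) := by
    intro i
    rw [e2 i]
    have hconv : ConvexOn ℝ Set.univ (fun s : ℝ => s ^ (2 * p)) := (even_two_mul p).convexOn_pow
    have := hconv.2 (Set.mem_univ ((Uᵀ * Z1 * U) i i)) (Set.mem_univ ((Uᵀ * Z2 * U) i i)) hα hβ hαβ
    simpa [smul_eq_mul] using this
  rw [e0]
  refine (Finset.sum_le_sum fun i _ => e3 i).trans ?_
  rw [Finset.sum_add_distrib, ← Finset.mul_sum, ← Finset.mul_sum]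
  have f1 := diag_le _ (hherm Z1 hZ1) p
  have f2 := diag_le _ (hherm Z2 hZ2) p
  rw [htr] at f1 f2
  exact add_le_add (mul_le_mul_of_nonneg_left f1 hα) (mul_le_mul_of_nonneg_left f2 hβ)

end det

section poly

variable {ι κ : Type*} [Fintype ι] [DecidableEq ι] [Fintype κ] [DecidableEq κ]

theorem XM_upd (w : κ → ι → ℝ) (ξ : κ → ℝ) (x : κ) (s t α β : ℝ) (h : α + β = 1) :
    XM w (Function.update ξ x (α * s + β * t)) =
      α • XM w (Function.update ξ x s) + β • XM w (Function.update ξ x t) := by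
  ext i j
  simp only [XM, Matrix.add_apply, Matrix.smul_apply, smul_eq_mul]
  rw [Finset.mul_sum, Finset.mul_sum, ← Finset.sum_add_distrib]
  refine Finset.sum_congr rfl fun y _ => ?_
  by_cases hy : y = x
  · subst hy
    simp only [Function.update_self]
    ring
  · simp only [Function.update_of_ne hy]
    have : ξ y = (α + β) * ξ y := by rw [h, one_mul]
    rw [this]
    have h2 : (α + β) * ξ y = ξ y := by rw [h, one_mul]
    rw [h2]
    linear_combination (-(ξ y * (w y i * w y j))) * h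

theorem tr_eval (w : κ → ι → ℝ) (n : ℕ) (ξ : κ → ℝ) :
    MvPolynomial.eval ξ ((PX w ^ n).trace) = (XM w ξ ^ n).trace := by
  rw [← eval_PX, ← map_pow]
  simp [Matrix.trace]

theorem XM_smul (w : κ → ι → ℝ) (ξ : κ → ℝ) (c : ℝ) :
    XM w (fun y => c * ξ y) = c • XM w ξ := by
  ext i j
  simp only [XM, Matrix.smul_apply, smul_eq_mul]
  rw [Finset.mul_sum]
  exact Finset.sum_congr rfl fun y _ => by ring

/-- **tail bound** for laws dominated by the Gaussian -/
theorem tail (μ : Measure ℝ) [IsProbabilityMeasure μ] (c : ℝ) (hμ : DomBy μ c)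
    (w : κ → ι → ℝ) (a b t : ℝ) (ha0 : 0 ≤ a) (hb0 : 0 ≤ b) (ht : 0 < t)
    (ha : ∀ x, ∑ i, w x i ^ 2 ≤ a)
    (hb : ∀ f : ι → ℝ, ∑ x, (∑ i, w x i * f i) ^ 2 ≤ b * ∑ i, f i ^ 2) (p : ℕ) (hp : p ≠ 0) :
    ∃ G : Set (κ → ℝ), MeasurableSet G ∧
      (Measure.pi fun _ : κ => μ).real Gᶜ ≤
        (2 * p * a * b * c ^ 2 / t ^ 2) ^ p * Fintype.card ι ∧
      ∀ ξ ∈ G, ∀ f : ι → ℝ, |∑ x, ξ x * (∑ i, w x i * f i) ^ 2| ≤ t * ∑ i, f i ^ 2 := by
  have h1 : Integrable (fun ξ => (XM w ξ ^ (2 * p)).trace) (Measure.pi fun _ : κ => μ) := by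
    simp only [← tr_eval]
    exact Hyb.int_poly _ (fun _ => hμ.1) _
  have h2 : ∫ ξ, (XM w ξ ^ (2 * p)).trace ∂(Measure.pi fun _ : κ => μ) ≤
      (2 * p * a * b * c ^ 2) ^ p * Fintype.card ι := by
    have e1 := Hyb.hybrid μ c hμ ((PX w ^ (2 * p)).trace) (fun ξ x => by
      refine ⟨convex_univ, ?_⟩
      intro s _ t _ α β hα hβ hαβ
      simp only [tr_eval, smul_eq_mul]
      rw [XM_upd w ξ x s t α β hαβ]
      exact tr_convex _ _ (XM_herm w _) (XM_herm w _) α β hα hβ hαβ p)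
    simp only [tr_eval, XM_smul, smul_pow, Matrix.trace_smul, smul_eq_mul] at e1
    rw [integral_const_mul] at e1
    refine e1.trans ?_
    have e2 := (moment w a b ha0 hb0 ha hb p).2
    have e3 : (2 * p * a * b * c ^ 2) ^ p * (Fintype.card ι : ℝ) =
        c ^ (2 * p) * ((2 * p * a * b) ^ p * Fintype.card ι) := by
      rw [mul_pow _ (c ^ 2), ← pow_mul]
      ring
    rw [e3]
    apply mul_le_mul_of_nonneg_left e2
    rw [pow_mul]
    positivity
  have hmeas : Measurable (fun ξ : κ → ℝ => (XM w ξ ^ (2 * p)).trace) := by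
    simp only [← tr_eval]
    exact (MvPolynomial.continuous_eval _).measurable
  have hpos : ∀ ξ : κ → ℝ, 0 ≤ (XM w ξ ^ (2 * p)).trace := by
    intro ξ
    obtain ⟨U, l, g1, g2, g3⟩ := spec (XM w ξ) (XM_herm w ξ)
    rw [g3, tr_spec U l g2 g1]
    refine Finset.sum_nonneg fun i _ => ?_
    rw [pow_mul]
    positivity
  refine ⟨{ξ | (XM w ξ ^ (2 * p)).trace ≤ t ^ (2 * p)}, measurableSet_le hmeas measurable_const,
    ?_, ?_⟩
  · have h3 := mul_meas_ge_le_integral_of_nonneg (Filter.Eventually.of_forall hpos) h1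
      (t ^ (2 * p))
    have h4 : (Measure.pi fun _ : κ => μ).real {ξ | (XM w ξ ^ (2 * p)).trace ≤ t ^ (2 * p)}ᶜ ≤
        (Measure.pi fun _ : κ => μ).real {ξ | t ^ (2 * p) ≤ (XM w ξ ^ (2 * p)).trace} := by
      refine measureReal_mono ?_ (measure_ne_top _ _)
      intro ξ hξ
      have h6 : ¬ (XM w ξ ^ (2 * p)).trace ≤ t ^ (2 * p) := hξ
      exact (not_le.1 h6).le
    have h5 : 0 < t ^ (2 * p) := by positivity
    refine h4.trans ?_
    rw [div_pow, ← pow_mul, div_mul_eq_mul_div, le_div_iff₀ h5, mul_comm]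
    exact h3.trans h2
  · intro ξ hξ f
    have h3 := form_le (XM w ξ) (XM_herm w ξ) p t ht.le hp hξ f
    have h4 : f ⬝ᵥ (XM w ξ *ᵥ f) = ∑ x, ξ x * (∑ i, w x i * f i) ^ 2 := by
      rw [XM_eq, Matrix.sum_mulVec, dotProduct_sum]
      refine Finset.sum_congr rfl fun x _ => ?_
      rw [Matrix.smul_mulVec, Matrix.vecMulVec_mulVec]
      have e1 : w x ⬝ᵥ f = ∑ i, w x i * f i := rfl
      have e2 : f ⬝ᵥ w x = ∑ i, w x i * f i := by rw [dotProduct_comm]; rfl
      simp only [dotProduct_smul, MulOpposite.smul_eq_mul_unop, MulOpposite.unop_op, smul_eq_mul,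
        e1, e2]
      ring
    rwa [h4] at h3

end poly

end Pool.Agent.W788.MF2.Nck2
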