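import Pool.Agent.W788.MFP.Ball
import Pool.Agent.W788.MF2.Nck2

/-! The form bounds for general laws and a general bound on the density of states. -/

set_option autoImplicit false
set_option linter.unusedSectionVars false

open scoped BigOperators
open MeasureTheory

namespace Pool.Agent.W788.MF2.FormG

open Pool.Agent.W788.MFP.Gm Pool.Agent.W788.MFP.Four Pool.Agent.W788.MFP.Dos
open Pool.Agent.W788.MFP.Form Pool.Agent.W788.MFP
open Pool.Agent.W788.MF2.Dom

variable {d L : ℕ} [NeZero L]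

/-- bound for the averages of `1/J`, uniformly in the energy -/
def GB (d L : ℕ) [NeZero L] (δ g : ℝ) : Prop :=
  ∀ E : ℝ, (NN d L)⁻¹ * ∑ k : T d L, (J E δ k)⁻¹ ≤ g

theorem GB_nonneg (δ g : ℝ) (hδ : 0 < δ) (h : GB d L δ g) : 0 ≤ g := by
  refine le_trans ?_ (h 0)
  apply mul_nonneg (inv_nonneg.2 NN_pos.le)
  exact Finset.sum_nonneg fun k _ => inv_nonneg.2 (J_pos 0 δ hδ k).le

/-- the form bound for one energy -/
theorem form1 (μ : Measure ℝ) [IsProbabilityMeasure μ] (c : ℝ) (hμ : DomBy μ c) (E δ g : ℝ)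
    (hδ0 : 0 < δ) (hg : GB d L δ g) (t : ℝ)
    (ht : 0 < t) (p : ℕ) (hp : p ≠ 0) :
    ∃ G : Set (T d L → ℝ), MeasurableSet G ∧
      (Measure.pi fun _ : T d L => μ).real Gᶜ ≤ (2 * p * g * δ⁻¹ * c ^ 2 / t ^ 2) ^ p * NN d L ∧
      ∀ ξ ∈ G, ∀ v : T d L → ℝ, |∑ x, ξ x * v x ^ 2| ≤ t * q (J E δ) v := by
  set ω : T d L → ℝ := fun k => (Real.sqrt (J E δ k))⁻¹ with hω
  have hωe : ∀ k, ω (-k) = ω k := fun k => by simp only [hω, J_neg]
  have hω2 : ∀ k, ω k ^ 2 = (J E δ k)⁻¹ := fun k => by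
    simp only [hω, inv_pow]
    rw [Real.sq_sqrt (J_pos E δ hδ0 k).le]
  set r : T d L → ℝ := fun k => Real.sqrt (J E δ k) with hr
  have hre : ∀ k, r (-k) = r k := fun k => by simp only [hr, J_neg]
  have hr2 : ∀ k, r k ^ 2 = J E δ k := fun k => Real.sq_sqrt (J_pos E δ hδ0 k).le
  have hωr : (fun k => ω k * r k) = fun _ => 1 := by
    funext k
    simp only [hω, hr]
    exact inv_mul_cancel₀ (Real.sqrt_pos.2 (J_pos E δ hδ0 k)).ne'
  set w : T d L → T d L → ℝ := fun x y => K ω (x - y) with hw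
  obtain ⟨G, hG, hP, hb⟩ := Nck2.tail μ c hμ w g δ⁻¹ t (GB_nonneg δ g hδ0 hg)
    (inv_nonneg.2 hδ0.le) ht (fun x => by
      rw [K_sq ω hωe x]
      simp only [hω2]
      exact hg E) (fun f => by
      have h1 : ∑ x, (∑ y, w x y * f y) ^ 2 = ∑ x, Op ω f x * Op ω f x :=
        Finset.sum_congr rfl fun x _ => by
          rw [sq]
          rfl
      rw [h1, sum_Op ω ω f hωe hωe, sum_sq, ← q_const]
      apply q_mono
      intro k
      rw [← sq, hω2, mul_one]
      exact inv_anti₀ hδ0 (J_ge E δ hδ0 k)) p hp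
  refine ⟨G, hG, ?_, fun ξ hξ v => ?_⟩
  · rw [card_T] at hP
    exact hP
  · have h1 := hb ξ hξ (Op r v)
    have h2 : ∀ x, ∑ y, w x y * Op r v y = v x := by
      intro x
      have h3 := Op_Op ω r v hωe hre
      rw [hωr, Op_one] at h3
      exact congrFun h3 x
    simp only [h2] at h1
    rw [sum_sq, q_Op _ r v hre] at h1
    simp only [one_mul, hr2] at h1
    exact h1

/-- the form bound for all energies -/
theorem formE (hd : 1 ≤ d) (μ : Measure ℝ) [IsProbabilityMeasure μ] (c : ℝ) (hμ : DomBy μ c)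
    (δ g : ℝ) (hδ0 : 0 < δ) (hδ1 : δ ≤ 1 / 2) (hg : GB d L δ g) (t : ℝ)
    (ht : 0 < t) (p : ℕ) (hp : p ≠ 0) :
    ∃ G : Set (T d L → ℝ), MeasurableSet G ∧
      (Measure.pi fun _ : T d L => μ).real Gᶜ ≤
        (8 * d / δ) * ((2 * p * g * δ⁻¹ * c ^ 2 / t ^ 2) ^ p * NN d L) ∧
      ∀ ξ ∈ G, ∀ (E : ℝ) (v : T d L → ℝ), |∑ x, ξ x * v x ^ 2| ≤ 2 * t * q (J E δ) v := by
  have hd3 : (1 : ℝ) ≤ d := by exact_mod_cast hd
  have hg0 := GB_nonneg δ g hδ0 hg
  choose G hG hP hb using fun E : ℝ => form1 (d := d) (L := L) μ c hμ E δ g hδ0 hg t ht p hp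
  set M : ℕ := ⌈(2 * (d : ℝ)) / δ⌉₊ with hM
  have hM1 : (2 * (d : ℝ)) / δ ≤ M := Nat.le_ceil _
  have hM2 : (M : ℝ) ≤ 2 * d / δ + 1 := (Nat.ceil_lt_add_one (by positivity)).le
  have hMδ : 2 * (d : ℝ) ≤ δ * M := by
    rw [div_le_iff₀ hδ0] at hM1
    linarith
  set I : Finset ℤ := Finset.Icc (-(M : ℤ)) M with hI
  have hcard : (I.card : ℝ) ≤ 8 * d / δ := by
    rw [hI, Int.card_Icc]
    have e1 : ((M : ℤ) + 1 - -(M : ℤ)).toNat = 2 * M + 1 := by omega
    rw [e1]
    push_cast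
    have h3 : (3 : ℝ) ≤ 4 * d / δ := by
      rw [le_div_iff₀ hδ0]
      nlinarith
    calc 2 * (M : ℝ) + 1 ≤ 2 * (2 * d / δ + 1) + 1 := by linarith
      _ = 4 * d / δ + 3 := by ring
      _ ≤ 4 * d / δ + 4 * d / δ := by linarith
      _ = 8 * d / δ := by ring
  have hm : MeasurableSet (⋂ j ∈ I, G (δ * j)) :=
    Finset.measurableSet_biInter _ fun j _ => hG _
  refine ⟨⋂ j ∈ I, G (δ * j), hm, ?_, ?_⟩
  · have e1 : (⋂ j ∈ I, G (δ * j))ᶜ = ⋃ j ∈ I, (G (δ * j))ᶜ := by
      simp only [Set.compl_iInter]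
    rw [e1]
    refine (measureReal_biUnion_finset_le _ _).trans
      ((Finset.sum_le_sum fun j _ => hP _).trans ?_)
    rw [Finset.sum_const, nsmul_eq_mul]
    apply mul_le_mul_of_nonneg_right hcard
    have h2 := (NN_pos (d := d) (L := L)).le
    positivity
  · intro ξ hξ E v
    have hj : ∀ j ∈ I, ξ ∈ G (δ * j) := fun j hj => Set.mem_iInter₂.1 hξ j hj
    -- choose the net point
    have hex : ∃ j ∈ I, ∀ k : T d L, J (δ * j) δ k ≤ 2 * J E δ k := by
      have hlarge : ∀ E' : ℝ, (∀ k : T d L, |adj k - E'| ≤ |adj k - E|) →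
          ∀ k : T d L, J E' δ k ≤ 2 * J E δ k := by
        intro E' h k
        have h1 : J E' δ k ≤ J E δ k := by
          unfold J
          apply Real.sqrt_le_sqrt
          have h2 := h k
          have h3 : (adj k - E') ^ 2 ≤ (adj k - E) ^ 2 := sq_le_sq.2 h2
          linarith
        have h2 := J_pos E δ hδ0 k
        linarith
      rcases le_or_gt (δ * M) E with h1 | h1
      · refine ⟨M, by rw [hI, Finset.mem_Icc]; omega, ?_⟩
        apply hlarge
        intro k
        have h2 := (abs_le.1 (adj_abs k)).2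
        push_cast
        rw [abs_of_nonpos (by linarith), abs_of_nonpos (by linarith)]
        linarith
      · rcases le_or_gt E (-(δ * M)) with h2 | h2
        · refine ⟨-M, by rw [hI, Finset.mem_Icc]; omega, ?_⟩
          apply hlarge
          intro k
          have h3 := (abs_le.1 (adj_abs k)).1
          push_cast
          rw [abs_of_nonneg (by linarith), abs_of_nonneg (by linarith)]
          linarith
        · have h3 := Int.floor_le (E / δ)
          have h4 := Int.lt_floor_add_one (E / δ)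
          refine ⟨⌊E / δ⌋, ?_, ?_⟩
          · rw [hI, Finset.mem_Icc]
            constructor
            · rw [Int.le_floor, le_div_iff₀ hδ0]
              push_cast
              linarith
            · have h5 : E / δ < M := by
                rw [div_lt_iff₀ hδ0]
                linarith
              have h6 : (⌊E / δ⌋ : ℝ) < M := by linarith
              have h7 : ⌊E / δ⌋ < (M : ℤ) := by exact_mod_cast h6
              omega
          · intro k
            apply J_le E _ δ hδ0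
            have h5 : δ * (⌊E / δ⌋ : ℝ) ≤ E := by
              calc δ * (⌊E / δ⌋ : ℝ) ≤ δ * (E / δ) := by gcongr
                _ = E := by field_simp
            have h6 : E ≤ δ * (⌊E / δ⌋ : ℝ) + δ := by
              calc E = δ * (E / δ) := by field_simp
                _ ≤ δ * ((⌊E / δ⌋ : ℝ) + 1) := by gcongr
                _ = _ := by ring
            rw [abs_le]
            constructor <;> linarith
    obtain ⟨j, hjI, hJ⟩ := hex
    have h1 := hb (δ * j) ξ (hj j hjI) v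
    have h2 : q (J (δ * j) δ) v ≤ 2 * q (J E δ) v := by
      rw [← q_const]
      exact q_mono _ _ _ hJ
    calc |∑ x, ξ x * v x ^ 2| ≤ t * q (J (δ * j) δ) v := h1
      _ ≤ t * (2 * q (J E δ) v) := by gcongr
      _ = _ := by ring

/-- pointwise bound -/
theorem point (E δ g : ℝ) (hδ0 : 0 < δ) (hg : GB d L δ g)
    (v : T d L → ℝ) (x : T d L) : v x ^ 2 ≤ g * q (J E δ) v := by
  set ω : T d L → ℝ := fun k => (Real.sqrt (J E δ k))⁻¹ with hω
  have hωe : ∀ k, ω (-k) = ω k := fun k => by simp only [hω, J_neg]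
  have hω2 : ∀ k, ω k ^ 2 = (J E δ k)⁻¹ := fun k => by
    simp only [hω, inv_pow]
    rw [Real.sq_sqrt (J_pos E δ hδ0 k).le]
  set r : T d L → ℝ := fun k => Real.sqrt (J E δ k) with hr
  have hre : ∀ k, r (-k) = r k := fun k => by simp only [hr, J_neg]
  have hr2 : ∀ k, r k ^ 2 = J E δ k := fun k => Real.sq_sqrt (J_pos E δ hδ0 k).le
  have hωr : (fun k => ω k * r k) = fun _ => 1 := by
    funext k
    simp only [hω, hr]
    exact inv_mul_cancel₀ (Real.sqrt_pos.2 (J_pos E δ hδ0 k)).ne'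
  have h3 := Op_Op ω r v hωe hre
  rw [hωr, Op_one] at h3
  have h4 : v x = ∑ y, K ω (x - y) * Op r v y := (congrFun h3 x).symm
  have h5 := Finset.sum_mul_sq_le_sq_mul_sq Finset.univ (fun y => K ω (x - y)) (Op r v)
  rw [← h4] at h5
  refine h5.trans ?_
  have h6 : ∑ y, Op r v y ^ 2 = q (J E δ) v := by
    rw [sum_sq, q_Op _ r v hre]
    simp only [one_mul, hr2]
  rw [h6]
  apply mul_le_mul_of_nonneg_right _ (q_nonneg _ _ fun k => (J_pos E δ hδ0 k).le)
  rw [K_sq ω hωe x]
  simp only [hω2]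
  exact hg E


end Pool.Agent.W788.MF2.FormG
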