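import Pool.Agent.W788.MFP.Nck

/-! Domination of centred bounded laws by Gaussian ones, for convex functions. -/

set_option autoImplicit false

open scoped BigOperators ENNReal NNReal
open MeasureTheory ProbabilityTheory

namespace Pool.Agent.W788.MF2.Dom

open Pool.Agent.W788.MFP Pool.Agent.W788.MFP.Gm

/-- `μ` is dominated by the Gaussian of standard deviation `c` -/
def DomBy (μ : Measure ℝ) (c : ℝ) : Prop :=
  (∀ n : ℕ, Integrable (fun s : ℝ => s ^ n) μ) ∧
  ∀ f : ℝ → ℝ, Continuous f → ConvexOn ℝ Set.univ f → Integrable f μ →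
    Integrable (fun s => f (c * s)) γ → Integrable (fun s => f (-(c * s))) γ →
    ∫ s, f s ∂μ ≤ ∫ s, f (c * s) ∂γ

theorem dom_gauss : DomBy γ 1 := by
  refine ⟨int_pow, ?_⟩
  intro f _ _ _ _ _
  simp only [one_mul]
  exact le_rfl

/-- the first absolute moment -/
noncomputable def m1 : ℝ := ∫ s, |s| ∂γ

theorem int_abs : Integrable (fun s : ℝ => |s|) γ := by
  have := (int_pow 1).abs
  simpa using this

theorem m1_pos : 0 < m1 := by
  unfold m1
  rw [integral_pos_iff_support_of_nonneg (fun s => abs_nonneg s) int_abs]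
  have h1 : Function.support (fun s : ℝ => |s|) = {0}ᶜ := by
    ext s
    simp
  rw [h1]
  have : NullSingletonClass γ := nullSingletonClass_gaussianReal (by norm_num)
  have h2 : γ {(0 : ℝ)}ᶜ = 1 := by
    rw [prob_compl_eq_one_iff (measurableSet_singleton 0)]
    exact measure_singleton 0
  rw [h2]
  norm_num

theorem gauss_neg : γ.map (fun s => -s) = γ := by
  have := gaussianReal_map_neg (μ := 0) (v := 1)
  simpa using this

/-- centred laws on `[-b, b]` -/
theorem dom_bdd (μ : Measure ℝ) [IsProbabilityMeasure μ] (b : ℝ) (hb : 0 < b)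
    (hs : ∀ᵐ s ∂μ, |s| ≤ b) (h0 : ∫ s, s ∂μ = 0) : DomBy μ (b / m1) := by
  have hint : ∀ n : ℕ, Integrable (fun s : ℝ => s ^ n) μ := by
    intro n
    refine Integrable.of_bound (C := b ^ n) (by fun_prop) ?_
    filter_upwards [hs] with s h
    rw [Real.norm_eq_abs, abs_pow]
    exact pow_le_pow_left₀ (abs_nonneg _) h n
  refine ⟨hint, ?_⟩
  intro f hfc hf hfμ hf1 hf2
  have hm := m1_pos
  obtain ⟨c, hc⟩ : ∃ c, c = b / m1 := ⟨_, rfl⟩
  rw [← hc] at hf1 hf2 ⊢
  have hc0 : 0 < c := by rw [hc]; positivity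
  -- upper bound by the end points
  have h1 : ∫ s, f s ∂μ ≤ (f b + f (-b)) / 2 := by
    have e1 : ∀ᵐ s ∂μ, f s ≤ (f b + f (-b)) / 2 + (f b - f (-b)) / (2 * b) * s := by
      filter_upwards [hs] with s h
      obtain ⟨hl, hr⟩ := abs_le.1 h
      have e2 : f (((b + s) / (2 * b)) • b + ((b - s) / (2 * b)) • (-b)) ≤
          ((b + s) / (2 * b)) • f b + ((b - s) / (2 * b)) • f (-b) :=
        hf.2 (Set.mem_univ b) (Set.mem_univ (-b)) (by apply div_nonneg <;> linarith)
        (by apply div_nonneg <;> linarith) (by field_simp; ring)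
      have e3 : ((b + s) / (2 * b)) • b + ((b - s) / (2 * b)) • (-b) = s := by
        simp only [smul_eq_mul]
        field_simp
        ring
      rw [e3] at e2
      refine e2.trans (le_of_eq ?_)
      simp only [smul_eq_mul]
      field_simp
      ring
    have hs1 : Integrable (fun s : ℝ => s) μ := by simpa using hint 1
    refine (integral_mono_ae hfμ ((integrable_const _).add (hs1.const_mul _)) e1).trans
      (le_of_eq ?_)
    have e4 : ∫ s, ((f b + f (-b)) / 2 + (f b - f (-b)) / (2 * b) * s) ∂μ =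
        (f b + f (-b)) / 2 := by
      rw [integral_add (integrable_const _) (hs1.const_mul _), integral_const_mul, h0]
      simp
    exact e4
  -- lower bound by convexity
  have g1 : ∀ s : ℝ, f (c * |s|) + f (-(c * |s|)) = f (c * s) + f (-(c * s)) := by
    intro s
    rcases abs_cases s with ⟨h, _⟩ | ⟨h, _⟩
    · rw [h]
    · rw [h]
      rw [mul_neg, neg_neg, add_comm]
  have hm1 : Integrable (fun s : ℝ => f (c * |s|)) γ := by
    refine (hf1.abs.add hf2.abs).mono' (by fun_prop) (Filter.Eventually.of_forall fun s => ?_)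
    simp only [Pi.add_apply]
    rw [Real.norm_eq_abs]
    rcases abs_cases s with ⟨h, _⟩ | ⟨h, _⟩
    · rw [h]
      have := abs_nonneg (f (-(c * s)))
      linarith
    · rw [h, mul_neg]
      have := abs_nonneg (f (c * s))
      linarith
  have hm2 : Integrable (fun s : ℝ => f (-(c * |s|))) γ := by
    refine (hf1.abs.add hf2.abs).mono' (by fun_prop) (Filter.Eventually.of_forall fun s => ?_)
    simp only [Pi.add_apply]
    rw [Real.norm_eq_abs]
    rcases abs_cases s with ⟨h, _⟩ | ⟨h, _⟩
    · rw [h]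
      have := abs_nonneg (f (c * s))
      linarith
    · rw [h, mul_neg, neg_neg]
      have := abs_nonneg (f (-(c * s)))
      linarith
  have hca : Integrable (fun s : ℝ => c * |s|) γ := int_abs.const_mul c
  have hcm : ∫ s, c * |s| ∂γ = b := by
    rw [integral_const_mul]
    have : ∫ s, |s| ∂γ = m1 := rfl
    rw [this, hc]
    field_simp
  have j1 : f b ≤ ∫ s, f (c * |s|) ∂γ := by
    have := hf.map_integral_le (μ := γ) (f := fun s => c * |s|) hfc.continuousOn isClosed_univ
      (Filter.Eventually.of_forall fun s => Set.mem_univ _) hca hm1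
    rw [hcm] at this
    exact this
  have j2 : f (-b) ≤ ∫ s, f (-(c * |s|)) ∂γ := by
    have := hf.map_integral_le (μ := γ) (f := fun s => -(c * |s|)) hfc.continuousOn isClosed_univ
      (Filter.Eventually.of_forall fun s => Set.mem_univ _) hca.neg hm2
    rw [integral_neg, hcm] at this
    exact this
  have j3 : ∫ s, f (c * |s|) ∂γ + ∫ s, f (-(c * |s|)) ∂γ =
      ∫ s, f (c * s) ∂γ + ∫ s, f (-(c * s)) ∂γ := by
    rw [← integral_add hm1 hm2, ← integral_add hf1 hf2]
    exact integral_congr_ae (Filter.Eventually.of_forall g1)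
  have j4 : ∫ s, f (-(c * s)) ∂γ = ∫ s, f (c * s) ∂γ := by
    have e1 : ∫ s, f (c * s) ∂γ = ∫ s, f (c * s) ∂(γ.map fun s => -s) := by rw [gauss_neg]
    rw [e1, integral_map (by fun_prop) (by fun_prop)]
    simp only [mul_neg]
  linarith

end Pool.Agent.W788.MF2.Dom
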