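import Pool.Agent.W788.MF2.Dom

/-! Replacing the coordinates one by one. -/

set_option autoImplicit false
set_option linter.unusedSectionVars false

open scoped BigOperators ENNReal NNReal
open MeasureTheory ProbabilityTheory

namespace Pool.Agent.W788.MF2.Hyb

open Pool.Agent.W788.MFP Pool.Agent.W788.MFP.Gm Pool.Agent.W788.MF2.Dom

variable {κ : Type*} [Fintype κ] [DecidableEq κ]

theorem int_poly (ν : κ → Measure ℝ) [∀ y, IsProbabilityMeasure (ν y)]
    (hν : ∀ y (n : ℕ), Integrable (fun s : ℝ => s ^ n) (ν y)) (p : MvPolynomial κ ℝ) :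
    Integrable (fun ξ => MvPolynomial.eval ξ p) (Measure.pi ν) := by
  induction p using MvPolynomial.induction_on' with
  | monomial u a =>
    simp only [eval_mono]
    exact (Integrable.fintype_prod (f := fun y (t : ℝ) => t ^ u y) fun y => hν y _).const_mul a
  | add p q hp hq =>
    simp only [map_add]
    exact hp.add hq

theorem eval_upd (ξ : κ → ℝ) (x : κ) (s : ℝ) (u : κ →₀ ℕ) (a : ℝ) :
    MvPolynomial.eval (Function.update ξ x s) (MvPolynomial.monomial u a) =
      (a * ∏ y, ξ y ^ (if y = x then 0 else u y)) * s ^ u x := by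
  rw [eval_mono, ← Finset.mul_prod_erase Finset.univ
    (fun y => Function.update ξ x s y ^ u y) (Finset.mem_univ x),
    ← Finset.mul_prod_erase Finset.univ (fun y => ξ y ^ (if y = x then 0 else u y))
    (Finset.mem_univ x), Function.update_self]
  have e2 : ∏ y ∈ Finset.univ.erase x, Function.update ξ x s y ^ u y =
      ∏ y ∈ Finset.univ.erase x, ξ y ^ (if y = x then 0 else u y) := by
    refine Finset.prod_congr rfl fun y hy => ?_
    have hne := Finset.ne_of_mem_erase hy
    rw [Function.update_of_ne hne, if_neg hne]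
  rw [e2]
  simp
  ring

theorem int_upd (ρ : Measure ℝ) (hρ : ∀ n : ℕ, Integrable (fun s : ℝ => s ^ n) ρ) (ξ : κ → ℝ)
    (x : κ) (p : MvPolynomial κ ℝ) :
    Integrable (fun s => MvPolynomial.eval (Function.update ξ x s) p) ρ := by
  induction p using MvPolynomial.induction_on' with
  | monomial u a =>
    simp only [eval_upd]
    exact (hρ _).const_mul _
  | add p q hp hq =>
    simp only [map_add]
    exact hp.add hq

/-- integrating out one coordinate -/
theorem upd (ν ν' : κ → Measure ℝ) [∀ y, IsProbabilityMeasure (ν y)]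
    [∀ y, IsProbabilityMeasure (ν' y)]
    (hν : ∀ y (n : ℕ), Integrable (fun s : ℝ => s ^ n) (ν y)) (x : κ)
    (hx : ∀ n : ℕ, Integrable (fun s : ℝ => s ^ n) (ν' x))
    (hν' : ∀ y, y ≠ x → ν' y = ν y) (p : MvPolynomial κ ℝ) :
    (∀ ξ, Integrable (fun s => MvPolynomial.eval (Function.update ξ x s) p) (ν' x)) ∧
    Integrable (fun ξ => ∫ s, MvPolynomial.eval (Function.update ξ x s) p ∂(ν' x))
      (Measure.pi ν) ∧
    ∫ ξ, (∫ s, MvPolynomial.eval (Function.update ξ x s) p ∂(ν' x)) ∂(Measure.pi ν) =
      ∫ ξ, MvPolynomial.eval ξ p ∂(Measure.pi ν') := by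
  have hall : ∀ y (n : ℕ), Integrable (fun s : ℝ => s ^ n) (ν' y) := by
    intro y n
    by_cases h : y = x
    · rw [h]
      exact hx n
    · rw [hν' y h]
      exact hν y n
  induction p using MvPolynomial.induction_on' with
  | monomial u a =>
    have e1 : ∀ (ξ : κ → ℝ) (s : ℝ), MvPolynomial.eval (Function.update ξ x s)
        (MvPolynomial.monomial u a) = (a * ∏ y, ξ y ^ (if y = x then 0 else u y)) * s ^ u x :=
      fun ξ s => eval_upd ξ x s u a
    have e3 : ∀ ξ : κ → ℝ, ∫ s, MvPolynomial.eval (Function.update ξ x s)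
        (MvPolynomial.monomial u a) ∂(ν' x) =
        (a * ∫ s, s ^ u x ∂(ν' x)) * ∏ y, ξ y ^ (if y = x then 0 else u y) := by
      intro ξ
      simp only [e1]
      rw [integral_const_mul]
      ring
    refine ⟨fun ξ => ?_, ?_, ?_⟩
    · simp only [e1]
      exact (hx _).const_mul _
    · simp only [e3]
      exact (Integrable.fintype_prod (f := fun y (t : ℝ) => t ^ (if y = x then 0 else u y))
        fun y => hν y _).const_mul _
    · simp only [e3]
      simp only [eval_mono]
      rw [integral_const_mul, integral_const_mul,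
        integral_fintype_prod_eq_prod (fun y (t : ℝ) => t ^ (if y = x then 0 else u y)),
        integral_fintype_prod_eq_prod (fun y (t : ℝ) => t ^ u y),
        ← Finset.mul_prod_erase Finset.univ (fun y => ∫ t, t ^ (if y = x then 0 else u y) ∂(ν y))
          (Finset.mem_univ x),
        ← Finset.mul_prod_erase Finset.univ (fun y => ∫ t, t ^ u y ∂(ν' y)) (Finset.mem_univ x)]
      have e2 : ∏ y ∈ Finset.univ.erase x, ∫ t, t ^ (if y = x then 0 else u y) ∂(ν y) =
          ∏ y ∈ Finset.univ.erase x, ∫ t, t ^ u y ∂(ν' y) := by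
        refine Finset.prod_congr rfl fun y hy => ?_
        have hne := Finset.ne_of_mem_erase hy
        rw [if_neg hne, hν' y hne]
      rw [e2]
      simp
      ring
  | add p q hp hq =>
    obtain ⟨p1, p2, p3⟩ := hp
    obtain ⟨q1, q2, q3⟩ := hq
    have e1 : ∀ ξ : κ → ℝ, ∫ s, MvPolynomial.eval (Function.update ξ x s) (p + q) ∂(ν' x) =
        ∫ s, MvPolynomial.eval (Function.update ξ x s) p ∂(ν' x) +
        ∫ s, MvPolynomial.eval (Function.update ξ x s) q ∂(ν' x) := by
      intro ξ
      simp only [map_add]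
      exact integral_add (p1 ξ) (q1 ξ)
    refine ⟨fun ξ => ?_, ?_, ?_⟩
    · simp only [map_add]
      exact (p1 ξ).add (q1 ξ)
    · simp only [e1]
      exact p2.add q2
    · simp only [e1]
      rw [integral_add p2 q2, p3, q3]
      simp only [map_add]
      rw [integral_add (int_poly ν' hall p) (int_poly ν' hall q)]

theorem map_mom (c : ℝ) (n : ℕ) : Integrable (fun s : ℝ => s ^ n) (γ.map fun s => c * s) := by
  rw [integrable_map_measure (by fun_prop) (by fun_prop)]
  have : ((fun s : ℝ => s ^ n) ∘ fun s => c * s) = fun s => c ^ n * s ^ n := by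
    funext s
    simp only [Function.comp]
    rw [mul_pow]
  rw [this]
  exact (int_pow n).const_mul _

/-- **comparison with Gaussian variables** -/
theorem hybrid (μ : Measure ℝ) [IsProbabilityMeasure μ] (c : ℝ) (hμ : DomBy μ c)
    (P : MvPolynomial κ ℝ)
    (hconv : ∀ (ξ : κ → ℝ) (x : κ), ConvexOn ℝ Set.univ
      (fun s : ℝ => MvPolynomial.eval (Function.update ξ x s) P)) :
    ∫ ξ, MvPolynomial.eval ξ P ∂(Measure.pi fun _ : κ => μ) ≤
      ∫ ξ, MvPolynomial.eval (fun y => c * ξ y) P ∂(Γ κ) := by
  obtain ⟨hmom, hdom⟩ := hμ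
  obtain ⟨ρ, hρ⟩ : ∃ ρ : Measure ℝ, ρ = γ.map fun s => c * s := ⟨_, rfl⟩
  have hρp : IsProbabilityMeasure ρ := by
    rw [hρ]
    exact Measure.isProbabilityMeasure_map (by fun_prop)
  have hρm : ∀ n : ℕ, Integrable (fun s : ℝ => s ^ n) ρ := by
    intro n
    rw [hρ]
    exact map_mom c n
  have hinst : ∀ (S : Finset κ) (y : κ), IsProbabilityMeasure (if y ∈ S then ρ else μ) := by
    intro S y
    split_ifs
    · exact hρp
    · infer_instance
  have hmomS : ∀ (S : Finset κ) (y : κ) (n : ℕ), Integrable (fun s : ℝ => s ^ n)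
      (if y ∈ S then ρ else μ) := by
    intro S y n
    split_ifs
    · exact hρm n
    · exact hmom n
  have hcont : ∀ (ξ : κ → ℝ) (x : κ),
      Continuous (fun s : ℝ => MvPolynomial.eval (Function.update ξ x s) P) := by
    intro ξ x
    exact (MvPolynomial.continuous_eval P).comp (continuous_const.update x continuous_id)
  have key : ∀ S : Finset κ, ∫ ξ, MvPolynomial.eval ξ P ∂(Measure.pi fun _ : κ => μ) ≤
      ∫ ξ, MvPolynomial.eval ξ P ∂(Measure.pi fun y : κ => if y ∈ S then ρ else μ) := by
    intro S
    induction S using Finset.induction_on with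
    | empty => simp
    | insert x S hxS ih =>
      refine ih.trans ?_
      have i1 := hinst S
      have i2 := hinst (insert x S)
      obtain ⟨a1, a2, a3⟩ := upd (fun y : κ => if y ∈ S then ρ else μ)
        (fun y : κ => if y ∈ S then ρ else μ) (hmomS S) x (hmomS S x) (fun y _ => rfl) P
      obtain ⟨b1, b2, b3⟩ := upd (fun y : κ => if y ∈ S then ρ else μ)
        (fun y : κ => if y ∈ insert x S then ρ else μ) (hmomS S) x (hmomS (insert x S) x)
        (fun y hy => by
          have : (y ∈ insert x S) ↔ y ∈ S := by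
            rw [Finset.mem_insert]
            exact or_iff_right hy
          simp only [this]) P
      rw [← a3, ← b3]
      refine integral_mono a2 b2 fun ξ => ?_
      have c1 := a1 ξ
      have c2 := b1 ξ
      simp only [if_neg hxS, if_pos (Finset.mem_insert_self x S)] at c1 c2 ⊢
      have c3 := hdom (fun s => MvPolynomial.eval (Function.update ξ x s) P) (hcont ξ x)
        (hconv ξ x) c1 (by
          rw [hρ, integrable_map_measure (hcont ξ x).aestronglyMeasurable (by fun_prop)] at c2
          exact c2) (by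
          have d1 := int_upd (γ.map fun s => -c * s) (map_mom (-c)) ξ x P
          rw [integrable_map_measure (hcont ξ x).aestronglyMeasurable (by fun_prop)] at d1
          refine d1.congr (Filter.Eventually.of_forall fun s => ?_)
          simp only [Function.comp, neg_mul])
      rw [hρ, integral_map (by fun_prop) (hcont ξ x).aestronglyMeasurable]
      exact c3
  have h1 := key Finset.univ
  simp only [Finset.mem_univ, if_true] at h1
  refine h1.trans (le_of_eq ?_)
  have e1 : (Measure.pi fun _ : κ => ρ) = (Γ κ).map (fun ξ y => c * ξ y) := by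
    have hsf : ∀ i : κ, SigmaFinite ((fun _ : κ => γ.map fun s => c * s) i) := by
      intro i
      simp only
      rw [← hρ]
      infer_instance
    rw [Measure.pi_map_pi (hμ := hsf) fun _ => by fun_prop, hρ]
  have hme : Measurable (fun (ξ : κ → ℝ) y => c * ξ y) := by fun_prop
  rw [e1, integral_map hme.aemeasurable
    (MvPolynomial.continuous_eval P).aestronglyMeasurable]

end Pool.Agent.W788.MF2.Hyb
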