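import Pool.Agent.W788.MFP.Site
import Pool.Agent.W788.MF2.FormG

/-! Bounds at one site, general version. -/

set_option autoImplicit false
set_option linter.unusedSectionVars false

open scoped BigOperators

namespace Pool.Agent.W788.MF2.SiteG

open Pool.Agent.W788.MFP.Four Pool.Agent.W788.MFP.Dos Pool.Agent.W788.MFP.Form
open Pool.Agent.W788.MFP.Crit Pool.Agent.W788.MFP.Cut Pool.Agent.W788.MFP.Site
open Pool.Agent.W788.MF2.FormG
open Pool.Agent.H4R2.LO (Zd)
open Pool.Agent.H695R3.AN (lf lf_inj lf_add lf_sub)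

variable {d L : ℕ} [NeZero L]

theorem real_site (hd : 1 ≤ d) (σ E δ ℓ g : ℝ) (hδ : 0 < δ) (hg : GB d L δ g) (hσ : 0 < σ)
    (hℓ : ℓ = 2 * d / δ) (hL : 4 * ℓ + 4 < L)
    (ω u : Zd d → ℝ) (hu : Summable fun x => u x ^ 2)
    (heq : ∀ x, ∑ i, (u (x + Pi.single i 1) + u (x - Pi.single i 1)) + σ * ω x * u x = E * u x)
    (hf : ∀ (E : ℝ) (w : T d L → ℝ),
      |∑ x, ω (lf x) * w x ^ 2| ≤ 2 * (1 / (4 * σ)) * q (J E δ) w) :
    u 0 ^ 2 ≤ 4 * δ * g * ∑' x, u x ^ 2 ∧
    ∀ θ R : ℝ, 0 < θ → θ ≤ 1 → (∀ j : ℕ, j ≤ d → θ ≤ |E - (2 * d - 4 * j)|) → 1 ≤ R →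
      ∀ A : Finset (Zd d), (∀ x ∈ A, ‖x‖ ≤ R) → ∑ x ∈ A, u x ^ 2 ≤
        28 * d ^ 2 * (d + 1) / θ * Real.sqrt (R * δ) * ∑' x, u x ^ 2 := by
  have hd3 : (1 : ℝ) ≤ d := by exact_mod_cast hd
  have hL0 : (0 : ℝ) < L := by exact_mod_cast Nat.pos_of_ne_zero (NeZero.ne L)
  have hℓδ : δ * ℓ = 2 * d := by
    rw [hℓ]
    field_simp
  have hℓ0 : 0 < ℓ := by rw [hℓ]; positivity
  have hS0 : 0 ≤ ∑' x, u x ^ 2 := tsum_nonneg fun x => sq_nonneg _
  have hLδ : 1 / (L : ℝ) ≤ δ := by
    rw [div_le_iff₀ hL0]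
    have : δ * ℓ ≤ δ * L := by
      apply mul_le_mul_of_nonneg_left _ hδ.le
      linarith
    linarith
  have hq := cut hd σ E δ (2 * (1 / (4 * σ))) ℓ hδ (by positivity) hσ.le (by
    have : σ * (2 * (1 / (4 * σ))) = 1 / 2 := by
      field_simp
      norm_num
    linarith) hℓδ.ge hL ω u hu heq (hf E)
  obtain ⟨v, hv⟩ : ∃ v : T d L → ℝ, v = fun y => φ ℓ (lf y) * u (lf y) := ⟨_, rfl⟩
  rw [← hv] at hq
  have hg0 := GB_nonneg δ g hδ hg
  have hvz : ∀ x : Zd d, ‖x‖ ≤ ℓ → v (z L x) = u x := by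
    intro x hx
    rw [hv]
    simp only
    rw [lf_z x (by linarith), φ_one ℓ hℓ0 x hx, one_mul]
  constructor
  · have h1 := FormG.point E δ g hδ hg v (z L 0)
    rw [hvz 0 (by rw [norm_zero]; exact hℓ0.le)] at h1
    calc u 0 ^ 2 ≤ g * q (J E δ) v := h1
      _ ≤ g * (4 * δ * ∑' x, u x ^ 2) := by gcongr
      _ = _ := by ring
  · intro θ R hθ hθ1 hcrit hR A hA
    have hR0 : 0 < R := by linarith
    have hCd : (1 : ℝ) ≤ d ^ 2 * (d + 1) := by nlinarith
    have htriv : ∑ x ∈ A, u x ^ 2 ≤ ∑' x, u x ^ 2 := hu.sum_le_tsum A fun x _ => sq_nonneg _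
    -- trivial bound when the constant is large
    have htriv2 : θ / (4 * d) ≤ Real.sqrt (R * δ) → ∑ x ∈ A, u x ^ 2 ≤
        28 * d ^ 2 * (d + 1) / θ * Real.sqrt (R * δ) * ∑' x, u x ^ 2 := by
      intro h
      refine htriv.trans ?_
      apply le_mul_of_one_le_left hS0
      have h2 : 28 * d ^ 2 * (d + 1) / θ * (θ / (4 * d)) ≤
          28 * d ^ 2 * (d + 1) / θ * Real.sqrt (R * δ) := by gcongr
      have h3 : 28 * d ^ 2 * (d + 1) / θ * (θ / (4 * d)) = 7 * (d * ((d : ℝ) + 1)) := by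
        field_simp
        ring
      nlinarith
    have hθd : θ / (4 * d) ≤ 1 := by
      rw [div_le_one (by positivity)]
      linarith
    rcases le_or_gt R ℓ with hRℓ | hRℓ
    · obtain ⟨s, hs⟩ : ∃ s, s = Real.sqrt (δ / R) := ⟨_, rfl⟩
      have hs0 : 0 < s := by rw [hs]; positivity
      have hRs : Real.sqrt (R * δ) = R * s := by
        rw [hs]
        have e1 : R * δ = R ^ 2 * (δ / R) := by
          field_simp
        rw [e1, Real.sqrt_mul (by positivity), Real.sqrt_sq hR0.le]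
      have hδs : δ = R * s * s := by
        rw [hs, mul_assoc, Real.mul_self_sqrt (by positivity)]
        field_simp
      rcases le_or_gt s (θ / (4 * d)) with hsθ | hsθ
      · have hs1 : 1 / (L : ℝ) ≤ s := by
          rw [div_le_iff₀ hL0]
          have e1 : 1 ≤ (s * ℓ) ^ 2 := by
            have e2 : s ^ 2 * R = δ := by rw [hδs]; ring
            have e3 : δ * ℓ ≤ s ^ 2 * ℓ * ℓ := by
              rw [← e2]
              have : s ^ 2 * R ≤ s ^ 2 * ℓ := by gcongr
              exact mul_le_mul_of_nonneg_right this hℓ0.le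
            rw [hℓδ] at e3
            nlinarith
          have e4 : 1 ≤ s * ℓ := by
            by_contra hcon
            push Not at hcon
            have : (s * ℓ) ^ 2 < 1 := by
              have : 0 ≤ s * ℓ := by positivity
              nlinarith
            linarith
          have e5 : s * ℓ ≤ s * L := by
            apply mul_le_mul_of_nonneg_left _ hs0.le
            linarith
          linarith
        have hc := crit hd E θ s δ hθ hθ1 hcrit hs1 hsθ (In L R) v
        -- the sum over `A`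
        have hinj : Set.InjOn (z (d := d) L) A := by
          intro x hx y hy hxy
          have e1 := lf_z (L := L) x (by linarith [hA x hx])
          have e2 := lf_z (L := L) y (by linarith [hA y hy])
          rw [← e1, ← e2, hxy]
        have hsum : ∑ x ∈ A, u x ^ 2 ≤
            ∑ y : T d L, (if ∀ i, y i ∈ In L R then v y ^ 2 else 0) := by
          classical
          have e1 : ∑ x ∈ A, u x ^ 2 = ∑ y ∈ A.image (z L),
              (if ∀ i, y i ∈ In L R then v y ^ 2 else 0) := by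
            rw [Finset.sum_image hinj]
            refine Finset.sum_congr rfl fun x hx => ?_
            have hxR := hA x hx
            have e2 : ∀ i, z L x i ∈ In L R := by
              intro i
              unfold In
              rw [Finset.mem_filter]
              refine ⟨Finset.mem_univ _, ?_⟩
              have e3 := coord (z L x) R (by rw [lf_z x (by linarith)]; exact hxR) i
              exact e3
            rw [if_pos e2, hvz x (by linarith)]
          rw [e1]
          apply Finset.sum_le_univ_sum_of_nonneg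
          intro y
          split_ifs <;> positivity
        have hv2 : ∑ x, v x ^ 2 ≤ ∑' x, u x ^ 2 := by
          refine le_trans (Finset.sum_le_sum fun x _ => ?_)
            (sum_lf (L := L) (fun x => u x ^ 2) (fun x => sq_nonneg _) hu)
          rw [hv]
          simp only
          rw [mul_pow]
          apply mul_le_of_le_one_left (sq_nonneg _)
          exact pow_le_one₀ (φ_nonneg _ _) (φ_le_one _ _)
        have hcard := card_In (L := L) R hR0.le
        have hcard2 : ((In L R).card : ℝ) ≤ 3 * R := by linarith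
        -- the square root of `θ / (4 d)`
        have hsq : θ / (2 * d) ≤ Real.sqrt (θ / (4 * d)) := by
          apply Real.le_sqrt_of_sq_le
          rw [div_pow, div_le_div_iff₀ (by positivity) (by positivity)]
          have e1 : θ ^ 2 ≤ θ := by nlinarith
          have e2 : θ ^ 2 * (4 * d) ≤ θ * (4 * d) :=
            mul_le_mul_of_nonneg_right e1 (by positivity)
          have e3 : θ * (4 * (d : ℝ)) ≤ θ * (2 * d) ^ 2 := by
            apply mul_le_mul_of_nonneg_left _ hθ.le
            nlinarith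
          exact e2.trans e3
        have hdiv : 4 * s / Real.sqrt (θ / (4 * d)) ≤ 8 * d * s / θ := by
          have e1 : 4 * s / Real.sqrt (θ / (4 * d)) ≤ 4 * s / (θ / (2 * d)) :=
            div_le_div_of_nonneg_left (by positivity) (by positivity) hsq
          refine e1.trans (le_of_eq ?_)
          field_simp
          norm_num
        calc ∑ x ∈ A, u x ^ 2 ≤ _ := hsum
          _ ≤ _ := hc
          _ ≤ (d + 1) * (s⁻¹ * (4 * δ * ∑' x, u x ^ 2) +
              d * (3 * R * (8 * d * s / θ) * ∑' x, u x ^ 2)) := by gcongr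
          _ = (d + 1) * (4 + 24 * d ^ 2 / θ) * (R * s) * ∑' x, u x ^ 2 := by
            have e1 : s⁻¹ * (4 * δ * ∑' x, u x ^ 2) = 4 * (R * s) * ∑' x, u x ^ 2 := by
              rw [hδs]
              field_simp
            rw [e1]
            ring
          _ ≤ (d + 1) * (4 * d ^ 2 / θ + 24 * d ^ 2 / θ) * (R * s) * ∑' x, u x ^ 2 := by
            have e1 : 4 ≤ 4 * (d : ℝ) ^ 2 / θ := by
              rw [le_div_iff₀ hθ]
              nlinarith
            gcongr
          _ = _ := by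
            rw [hRs]
            ring
      · apply htriv2
        rw [hRs]
        nlinarith
    · apply htriv2
      refine hθd.trans ?_
      rw [Real.one_le_sqrt]
      have : ℓ * δ ≤ R * δ := mul_le_mul_of_nonneg_right hRℓ.le hδ.le
      nlinarith

/-- complex eigenfunctions -/
theorem cplx_site (hd : 1 ≤ d) (σ E δ ℓ g : ℝ) (hδ : 0 < δ) (hg : GB d L δ g) (hσ : 0 < σ)
    (hℓ : ℓ = 2 * d / δ) (hL : 4 * ℓ + 4 < L)
    (ω : Zd d → ℝ) (u : Zd d → ℂ) (hu : Summable fun x => ‖u x‖ ^ 2)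
    (heq : ∀ x, ∑ i, (u (x + Pi.single i 1) + u (x - Pi.single i 1)) +
      ((σ * ω x : ℝ) : ℂ) * u x = (E : ℂ) * u x)
    (hf : ∀ (E : ℝ) (w : T d L → ℝ),
      |∑ x, ω (lf x) * w x ^ 2| ≤ 2 * (1 / (4 * σ)) * q (J E δ) w) :
    ‖u 0‖ ^ 2 ≤ 4 * δ * g * ∑' x, ‖u x‖ ^ 2 ∧
    ∀ θ R : ℝ, 0 < θ → θ ≤ 1 → (∀ j : ℕ, j ≤ d → θ ≤ |E - (2 * d - 4 * j)|) → 1 ≤ R →
      ∀ A : Finset (Zd d), (∀ x ∈ A, ‖x‖ ≤ R) → ∑ x ∈ A, ‖u x‖ ^ 2 ≤
        28 * d ^ 2 * (d + 1) / θ * Real.sqrt (R * δ) * ∑' x, ‖u x‖ ^ 2 := by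
  have hn : ∀ x, ‖u x‖ ^ 2 = (u x).re ^ 2 + (u x).im ^ 2 := by
    intro x
    rw [← Complex.normSq_eq_norm_sq, Complex.normSq_apply]
    ring
  have hre : Summable fun x => (u x).re ^ 2 :=
    Summable.of_nonneg_of_le (fun x => sq_nonneg _) (fun x => by
      rw [hn x]
      nlinarith [sq_nonneg (u x).im]) hu
  have him : Summable fun x => (u x).im ^ 2 :=
    Summable.of_nonneg_of_le (fun x => sq_nonneg _) (fun x => by
      rw [hn x]
      nlinarith [sq_nonneg (u x).re]) hu
  have hsum : ∑' x, ‖u x‖ ^ 2 = ∑' x, (u x).re ^ 2 + ∑' x, (u x).im ^ 2 := by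
    rw [← hre.tsum_add him]
    exact tsum_congr hn
  have eqre : ∀ x, ∑ i, ((u (x + Pi.single i 1)).re + (u (x - Pi.single i 1)).re) +
      σ * ω x * (u x).re = E * (u x).re := by
    intro x
    have h := congrArg Complex.re (heq x)
    simpa using h
  have eqim : ∀ x, ∑ i, ((u (x + Pi.single i 1)).im + (u (x - Pi.single i 1)).im) +
      σ * ω x * (u x).im = E * (u x).im := by
    intro x
    have h := congrArg Complex.im (heq x)
    simpa using h
  obtain ⟨r1, r2⟩ := real_site hd σ E δ ℓ g hδ hg hσ hℓ hL ω (fun x => (u x).re) hre eqre hf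
  obtain ⟨i1, i2⟩ := real_site hd σ E δ ℓ g hδ hg hσ hℓ hL ω (fun x => (u x).im) him eqim hf
  constructor
  · rw [hn, hsum, mul_add]
    exact add_le_add r1 i1
  · intro θ R hθ hθ1 hcrit hR A hA
    rw [Finset.sum_congr rfl fun x _ => hn x, Finset.sum_add_distrib, hsum, mul_add]
    exact add_le_add (r2 θ R hθ hθ1 hcrit hR A hA) (i2 θ R hθ hθ1 hcrit hR A hA)

end Pool.Agent.W788.MF2.SiteG
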